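import Pool.Agent.Helper41.Girth4.Stmts

/-!
# Packet L for MP_246f82_co: the final deduction
-/

namespace Pool.Agent.Helper16.Girth4

open Finset Pool.Agent.Helper41.Girth4

universe u

/-- Colouring one more degree with one more colour. -/
def ColAt (g : ℕ) (Δ c : ℕ) : Prop :=
  ∀ (V : Type u) [Fintype V] (G : SimpleGraph V) [DecidableRel G.Adj],
    G.maxDegree ≤ Δ → (g : ℕ∞) ≤ G.egirth → G.Colorable c

theorem colAt_step {g Δ c : ℕ} (h : ColAt.{u} g Δ c) : ColAt.{u} g (Δ + 1) (c + 1) := by
  classical
  intro V _ G _ hdeg hg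
  -- a maximal independent set
  let S : Finset (Finset V) := Finset.univ.filter fun I => ∀ u ∈ I, ∀ v ∈ I, ¬ G.Adj u v
  have hS : S.Nonempty := ⟨∅, by simp [S]⟩
  obtain ⟨I, hIS, hmax⟩ := Finset.exists_max_image S Finset.card hS
  have hI : ∀ u ∈ I, ∀ v ∈ I, ¬ G.Adj u v := (Finset.mem_filter.mp hIS).2
  have hdom : ∀ v, v ∉ I → ∃ u ∈ I, G.Adj v u := by
    intro v hv
    by_contra hcon
    push Not at hcon
    have hmem : insert v I ∈ S := by
      refine Finset.mem_filter.mpr ⟨Finset.mem_univ _, ?_⟩
      intro a ha b hb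
      rcases Finset.mem_insert.mp ha with rfl | ha'
      · rcases Finset.mem_insert.mp hb with rfl | hb'
        · exact G.irrefl
        · exact hcon b hb'
      · rcases Finset.mem_insert.mp hb with rfl | hb'
        · exact fun hab => hcon a ha' hab.symm
        · exact hI a ha' b hb'
    have := hmax _ hmem
    rw [Finset.card_insert_of_notMem hv] at this
    omega
  let W : Type u := {v : V // v ∉ I}
  let G' : SimpleGraph W := G.comap Subtype.val
  have hdeg' : G'.maxDegree ≤ Δ := by
    apply SimpleGraph.maxDegree_le_of_forall_degree_le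
    intro v
    obtain ⟨u, hu, huv⟩ := hdom v.1 v.2
    have h1 : (G'.neighborFinset v).map ⟨Subtype.val, Subtype.val_injective⟩ ⊆
        (G.neighborFinset v.1).erase u := by
      intro x hx
      obtain ⟨y, hy, rfl⟩ := Finset.mem_map.mp hx
      rw [SimpleGraph.mem_neighborFinset] at hy
      refine Finset.mem_erase.mpr ⟨?_, ?_⟩
      · rintro rfl
        exact y.2 hu
      · rw [SimpleGraph.mem_neighborFinset]
        exact hy
    have h2 := Finset.card_le_card h1
    rw [Finset.card_map, Finset.card_erase_of_mem (by rwa [SimpleGraph.mem_neighborFinset])] at h2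
    have h3 : (G.neighborFinset v.1).card ≤ Δ + 1 := (G.degree_le_maxDegree v.1).trans hdeg
    have h4 : (G'.neighborFinset v).card = G'.degree v := rfl
    omega
  have hgirth : (g : ℕ∞) ≤ G'.egirth := by
    refine hg.trans (SimpleGraph.IsContained.egirth_le ?_)
    exact ⟨⟨⟨Subtype.val, fun {a b} hab => hab⟩, Subtype.val_injective⟩⟩
  obtain ⟨C⟩ := h W G' hdeg' hgirth
  refine ⟨SimpleGraph.Coloring.mk
    (fun v => if hv : v ∈ I then Fin.last c else (C ⟨v, hv⟩).castSucc) ?_⟩
  intro v w hvw
  by_cases hv : v ∈ I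
  · have hw : w ∉ I := fun hw => hI v hv w hw hvw
    simp only [hv, hw, dif_pos, dif_neg, not_false_iff]
    exact (Fin.castSucc_lt_last _).ne'
  · by_cases hw : w ∈ I
    · simp only [hv, hw, dif_pos, dif_neg, not_false_iff]
      exact (Fin.castSucc_lt_last _).ne
    · simp only [hv, hw, dif_neg, not_false_iff]
      intro heq
      have h1 : C ⟨v, hv⟩ = C ⟨w, hw⟩ := Fin.castSucc_injective _ heq
      exact C.valid (v := (⟨v, hv⟩ : W)) (w := ⟨w, hw⟩) hvw h1

/-- Packet L. -/
theorem stmtFinal : StmtFinal.{u} := by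
  intro ⟨g0, hg0⟩
  have h4 : ColAt.{u} (max g0 4) 4 3 := by
    intro V _ G _ hd hg
    exact hg0 V G hd (le_trans (by exact_mod_cast le_max_left g0 4) hg)
  have h5 := colAt_step h4
  have h6 := colAt_step h5
  refine ⟨max g0 4, le_max_right _ _, ?_, ?_⟩
  · intro V _ G _ hg
    exact ⟨fun hd => h4 V G hd hg, fun hd => h5 V G hd hg, fun hd => h6 V G hd hg⟩
  · intro k hk V _ G _ hreg hcyc
    have hg : ((max g0 4 : ℕ) : ℕ∞) ≤ G.egirth := by
      rw [SimpleGraph.le_egirth]
      intro a w hw
      exact_mod_cast hcyc a w hw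
    have hd : G.maxDegree ≤ k := by
      apply SimpleGraph.maxDegree_le_of_forall_degree_le
      intro v
      exact (hreg v).le
    have hlt : G.chromaticNumber < k := by
      rcases hk with rfl | rfl | rfl
      · refine lt_of_le_of_lt (h4 V G hd hg).chromaticNumber_le ?_
        norm_num
      · refine lt_of_le_of_lt (h5 V G hd hg).chromaticNumber_le ?_
        norm_num
      · refine lt_of_le_of_lt (h6 V G hd hg).chromaticNumber_le ?_
        norm_num
    exact hlt.ne

end Pool.Agent.Helper16.Girth4
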