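import Pool.Agent.Helper41.Girth4.Stmts

/-!
# Packet B for MP_246f82_co: locality of the tree event
-/

namespace Pool.Agent.Helper16.Girth4

open Finset Pool.Agent.Helper41.Girth4

variable {P : Par}

/-- Agreement on words of length at most `n`. -/
def Agr (n : ℕ) (X Y : Tr P) : Prop := ∀ z : List (Fin 3), z.length ≤ n → X z = Y z

theorem Agr.mono {n m : ℕ} {X Y : Tr P} (h : Agr n X Y) (hm : m ≤ n) : Agr m X Y :=
  fun z hz => h z (hz.trans hm)

theorem Agr.sub {n : ℕ} {X Y : Tr P} (h : Agr (n + 1) X Y) (i : Fin 3) :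
    Agr n (Helper41.Girth4.sub X i) (Helper41.Girth4.sub Y i) :=
  fun z hz => h (i :: z) (by simpa using hz)

theorem Agr.nil {n : ℕ} {X Y : Tr P} (h : Agr n X Y) : X [] = Y [] := h [] (by simp)

theorem Agr.single {n : ℕ} {X Y : Tr P} (h : Agr (n + 1) X Y) (i : Fin 3) : X [i] = Y [i] :=
  h [i] (by simp)

theorem cnt_congr {n : ℕ} {A B : Fin n → Prop} (h : ∀ i, A i ↔ B i) : cnt A = cnt B := by
  have : A = B := funext fun i => propext (h i)
  rw [this]

/-- Locality of a predicate. -/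
def IsLoc (n : ℕ) (A : Tr P → Prop) : Prop := ∀ X Y, Agr n X Y → (A X ↔ A Y)

theorem isLoc_rgOf {n : ℕ} {A : Tr P → Prop} (hA : IsLoc n A) (t : ℕ) :
    IsLoc (n + 1) (RgOf A t) := by
  intro X Y h
  unfold RgOf
  rw [hA X Y (h.mono (Nat.le_succ n)), h.nil, cnt_congr fun i => hA _ _ (h.sub i)]

theorem isLoc_stOf {n : ℕ} {A : Tr P → Prop} (hA : IsLoc n A) (t : ℕ) :
    IsLoc (n + 2) (StOf A t) := by
  intro X Y h
  unfold StOf
  have h1 := isLoc_rgOf hA t X Y (h.mono (Nat.le_succ _))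
  have h2 : ∀ i, (RgOf A t (sub X i) ↔ RgOf A t (sub Y i)) := fun i =>
    isLoc_rgOf hA t _ _ (h.sub i)
  rw [h1, h.nil]
  refine and_congr_right fun _ => forall_congr' fun i => ?_
  rw [h2 i, h.single i]

theorem isLoc_al : ∀ t, IsLoc (3 * t) (Al (P := P) t)
  | 0 => fun X Y _ => by simp [Al]
  | t + 1 => by
    intro X Y h
    have ih : IsLoc (P := P) (3 * t) (Al t) := isLoc_al t
    have h' : Agr (3 * t + 3) X Y := by
      have e : 3 * (t + 1) = 3 * t + 3 := by ring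
      rwa [e] at h
    unfold Al
    rw [ih X Y (h'.mono (by omega)), isLoc_rgOf ih t X Y (h'.mono (by omega))]
    refine and_congr_right fun _ => and_congr_right fun _ => forall_congr' fun i => ?_
    rw [isLoc_stOf ih t _ _ (h'.sub i)]

theorem isLoc_rg (t : ℕ) : IsLoc (3 * t + 1) (Rg (P := P) t) := isLoc_rgOf (isLoc_al t) t

theorem isLoc_st (t : ℕ) : IsLoc (3 * t + 2) (St (P := P) t) := isLoc_stOf (isLoc_al t) t

theorem surv_congr {m : ℕ} (n : ℕ → ℕ) {T : ℕ} (hT : T ≤ P.K) (u : Fin P.K → Fin P.N)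
    {Y Z : Fin m → Tr P} (h : ∀ k, Agr (3 * P.K + 2) (Y k) (Z k)) :
    surv n T u Y ↔ surv n T u Z := by
  unfold surv
  refine forall_congr' fun t => imp_congr_right fun ht => ?_
  have h1 : cnt (fun k => Al t (Y k)) = cnt (fun k => Al t (Z k)) :=
    cnt_congr fun k => isLoc_al t _ _ ((h k).mono (by omega))
  rw [h1]
  refine and_congr_right fun _ => forall_congr' fun k => ?_
  rw [isLoc_st t _ _ ((h k).mono (by omega))]

theorem loc_congr {a : ℕ} {s : ℕ × Bool} {c : ℕ} (hs : OK P s) {sat sat' : Prop}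
    (hsat : sat ↔ sat') {l l' : Lab P} (hl : l = l') {Y Z : Fin 2 → Tr P}
    (h : ∀ k, Agr (3 * P.K + 2) (Y k) (Z k)) :
    Loc a s c sat l Y ↔ Loc a s c sat' l' Z := by
  subst hl
  have hT : s.1 ≤ P.K := hs.1
  unfold Loc
  have h1 : cnt (fun k => Al s.1 (Y k)) = cnt (fun k => Al s.1 (Z k)) :=
    cnt_congr fun k => isLoc_al s.1 _ _ ((h k).mono (by omega))
  have h2 : ∀ k, (Rg s.1 (Y k) ∧ ¬ beats l.2 (Y k []).2) ↔
      (Rg s.1 (Z k) ∧ ¬ beats l.2 (Z k []).2) := fun k => by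
    rw [isLoc_rg s.1 _ _ ((h k).mono (by omega)), (h k).nil]
  have h3 : ∀ k, St s.1 (Y k) ↔ St s.1 (Z k) := fun k =>
    isLoc_st s.1 _ _ ((h k).mono (by omega))
  rw [surv_congr _ hT l.1 h, h1, hsat, exists_congr h2, exists_congr h3]

/-- Agreement on `Cat`. -/
def AgrC (w : List (Fin 3)) (X Y : Tr P) : Prop := ∀ z ∈ Cat (3 * P.K + 3) w, X z = Y z

theorem AgrC.agr {w : List (Fin 3)} {X Y : Tr P} (h : AgrC w X Y) : Agr (3 * P.K + 3) X Y :=
  fun z hz => h z ⟨0, z, Nat.zero_le _, by simp, hz⟩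

theorem AgrC.sub {c : Fin 3} {w : List (Fin 3)} {X Y : Tr P} (h : AgrC (c :: w) X Y) :
    AgrC w (Helper41.Girth4.sub X c) (Helper41.Girth4.sub Y c) := by
  intro z hz
  obtain ⟨k, z', hk, rfl, hz'⟩ := hz
  refine h (c :: (w.take k ++ z')) ⟨k + 1, z', ?_, ?_, hz'⟩
  · simpa using hk
  · simp

theorem tb_congr : ∀ (w : List (Fin 3)) (p : ℕ × Bool) (lp : ZMod P.M) (s : ℕ × Bool)
    (X Y : Tr P), OK P s → AgrC w X Y → TB p lp s w X → TB p lp s w Y
  | [], _, _, _, _, _, _, _, _ => by simp [TB]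
  | c :: w, p, lp, s, X, Y, hs, h, hTB => by
    rw [TB] at hTB ⊢
    obtain ⟨x, hx, hloc, hrec⟩ := hTB
    have hA := h.agr
    refine ⟨x, hx, ?_, ?_⟩
    · refine (loc_congr hs ?_ hA.nil fun k => ?_).mp hloc
      · rw [hA.nil, hA.single c]
      · exact (hA.sub (c.succAbove k)).mono (by omega)
    · rw [← hA.nil]
      exact tb_congr w s _ x _ _ hx h.sub hrec

/-- Packet B. -/
theorem stmtLocal (P : Par) : StmtLocal P := by
  intro w X Y h hTB
  cases w with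
  | nil => simp [TB0]
  | cons c w =>
    rw [TB0] at hTB ⊢
    obtain ⟨p, s, hp, hs, hT⟩ := hTB
    have hA : AgrC (c :: w) X Y := h
    refine ⟨p, s, hp, hs, ?_⟩
    rw [← hA.agr.nil]
    exact tb_congr w p _ s _ _ hs hA.sub hT

end Pool.Agent.Helper16.Girth4
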